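import Pool.Agent.H38R2.CG.Stubs
import Pool.Agent.Helper923.PPS.BT

/-!
Piece BT (P_BT) of the class group project: Brun-Titchmarsh bound in short intervals.
-/

set_option autoImplicit false

namespace Run7.h694.CG

open Finset Filter Pool.Agent.H38R2.CG
open scoped Classical

theorem T2_BT : P_BT := by
  obtain ⟨C, hC1, hC⟩ := Pool.Agent.Helper923.PPS.brun_titchmarsh
  refine ⟨9 * C, 2, by linarith, fun x h y hy hyx _ hh => ?_⟩
  have hy0 : (0 : ℝ) < y := by linarith
  have hx0 : (0 : ℝ) ≤ x := by linarith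
  have hlogy : 0 < Real.log y := Real.log_pos (by linarith)
  have h1 : 1 ≤ h := by
    refine le_trans ?_ hh
    exact Real.one_le_rpow (by linarith) (by norm_num)
  set N := ⌊h⌋₊ + 2 with hN
  have hB := hC ⌈x⌉₊ 1 N (by omega) (Or.inl rfl)
  have hNr : h ≤ N := by
    rw [hN]
    push_cast
    have := Nat.lt_floor_add_one h
    linarith
  have hNu : (N : ℝ) ≤ 3 * h := by
    rw [hN]
    push_cast
    have := Nat.floor_le (show 0 ≤ h by linarith)
    linarith
  have hN0 : (0 : ℝ) < N := by linarith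
  have hlogN : Real.log y / 3 ≤ Real.log N := by
    have a1 : Real.log (y ^ (1 / 3 : ℝ)) ≤ Real.log N :=
      Real.log_le_log (by positivity) (hh.trans hNr)
    rw [Real.log_rpow hy0] at a1
    linarith
  have hcard : (((Finset.Icc ⌈x⌉₊ ⌊x + h⌋₊).filter Nat.Prime).card : ℝ) ≤
      (((Finset.range N).filter (fun k => (⌈x⌉₊ + k * 1).Prime)).card : ℝ) := by
    have hle : ((Finset.Icc ⌈x⌉₊ ⌊x + h⌋₊).filter Nat.Prime).card ≤
        ((Finset.range N).filter (fun k => (⌈x⌉₊ + k * 1).Prime)).card := by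
      refine Finset.card_le_card_of_injOn (fun p => p - ⌈x⌉₊) ?_ ?_
      · intro p hp
        rw [Finset.mem_coe, Finset.mem_filter, Finset.mem_Icc] at hp
        obtain ⟨⟨hp1, hp2⟩, hp3⟩ := hp
        rw [Finset.mem_coe, Finset.mem_filter, Finset.mem_range]
        constructor
        · have b1 : (p : ℝ) ≤ x + h := by
            have := Nat.floor_le (show 0 ≤ x + h by linarith)
            exact le_trans (by exact_mod_cast hp2) this
          have b2 : x ≤ (⌈x⌉₊ : ℝ) := Nat.le_ceil x
          have b3 : ((p - ⌈x⌉₊ : ℕ) : ℝ) ≤ h := by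
            rw [Nat.cast_sub hp1]
            linarith
          have b4 : ((p - ⌈x⌉₊ : ℕ) : ℕ) ≤ ⌊h⌋₊ := Nat.le_floor b3
          show p - ⌈x⌉₊ < N
          omega
        · show (⌈x⌉₊ + (p - ⌈x⌉₊) * 1).Prime
          rw [mul_one, Nat.add_sub_cancel' hp1]
          exact hp3
      · intro p hp q hq hpq
        rw [Finset.mem_coe, Finset.mem_filter, Finset.mem_Icc] at hp hq
        have e : p - ⌈x⌉₊ = q - ⌈x⌉₊ := hpq
        omega
    exact_mod_cast hle
  have hCN : 0 ≤ C * N := by positivity
  calc (((Finset.Icc ⌈x⌉₊ ⌊x + h⌋₊).filter Nat.Prime).card : ℝ)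
      ≤ C * N / Real.log N := hcard.trans hB
    _ ≤ C * N / (Real.log y / 3) := div_le_div_of_nonneg_left hCN (by positivity) hlogN
    _ ≤ C * (3 * h) / (Real.log y / 3) := by
        refine div_le_div_of_nonneg_right ?_ (by positivity)
        exact mul_le_mul_of_nonneg_left hNu (by linarith)
    _ = 9 * C * h / Real.log y := by
        field_simp
        ring

end Run7.h694.CG
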