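import Pool.Agent.H38R2.CG.Stubs

/-!
Piece CC3 (P_CC3) of the class group project: no correlation with n^{it}.
-/

set_option autoImplicit false

namespace Run7.h694.CG

open Finset Filter Pool.Agent.H38R2.CG
open scoped Classical

namespace CC3h

/-- a large sum of numbers of the unit disc: most of them are close to a fixed direction -/
theorem good_set (P : Finset ℕ) (v : ℕ → ℂ) (hv : ∀ p ∈ P, ‖v p‖ ≤ 1) (s : ℝ) (hs : 0 < s)
    (hs1 : s ≤ 1) (h : (1 - s ^ 2 / 4) * P.card < ‖∑ p ∈ P, v p‖) :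
    ∃ w : ℂ, ‖w‖ = 1 ∧
      (P.card : ℝ) / 2 < ((P.filter (fun p => ‖w * v p - 1‖ ≤ s)).card : ℝ) := by
  set S := ∑ p ∈ P, v p with hS
  have hS0 : 0 < ‖S‖ := by
    refine lt_of_le_of_lt ?_ h
    have : s ^ 2 ≤ 1 := by nlinarith
    have h2 : (0 : ℝ) ≤ 1 - s ^ 2 / 4 := by linarith
    positivity
  have hSne : S ≠ 0 := norm_pos_iff.mp hS0
  set w : ℂ := (starRingEnd ℂ) S / (‖S‖ : ℂ) with hw
  have hw1 : ‖w‖ = 1 := by
    rw [hw, norm_div, RCLike.norm_conj, Complex.norm_real, norm_norm, div_self hS0.ne']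
  have hwS : w * S = (‖S‖ : ℂ) := by
    rw [hw, div_mul_eq_mul_div, mul_comm, Complex.mul_conj, Complex.normSq_eq_norm_sq]
    have : (‖S‖ : ℂ) ≠ 0 := by exact_mod_cast hS0.ne'
    push_cast
    field_simp
  refine ⟨w, hw1, ?_⟩
  -- each term
  have hu : ∀ p ∈ P, ‖w * v p‖ ≤ 1 := by
    intro p hp
    rw [norm_mul, hw1, one_mul]
    exact hv p hp
  have hre : ∀ p ∈ P, 0 ≤ 1 - (w * v p).re := by
    intro p hp
    have := (Complex.re_le_norm (w * v p)).trans (hu p hp)
    linarith
  have hsum : ∑ p ∈ P, (1 - (w * v p).re) = P.card - ‖S‖ := by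
    rw [Finset.sum_sub_distrib]
    have e1 : ∑ p ∈ P, (w * v p).re = ‖S‖ := by
      rw [← Complex.re_sum, ← Finset.mul_sum, ← hS, hwS, Complex.ofReal_re]
    rw [e1]
    simp
  have hbad : ∀ p ∈ P.filter (fun p => ¬ ‖w * v p - 1‖ ≤ s), s ^ 2 / 2 ≤ 1 - (w * v p).re := by
    intro p hp
    rw [Finset.mem_filter, not_le] at hp
    have h1 : s ^ 2 < ‖w * v p - 1‖ ^ 2 := by
      have := hp.2
      nlinarith
    have h2 : ‖w * v p - 1‖ ^ 2 = ‖w * v p‖ ^ 2 - 2 * (w * v p).re + 1 := by
      rw [← Complex.normSq_eq_norm_sq, ← Complex.normSq_eq_norm_sq, Complex.normSq_apply,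
        Complex.normSq_apply]
      simp
      ring
    have h3 := hu p hp.1
    have h4 : ‖w * v p‖ ^ 2 ≤ 1 := by
      have := norm_nonneg (w * v p)
      nlinarith
    linarith
  have hcb : (s ^ 2 / 2) * ((P.filter (fun p => ¬ ‖w * v p - 1‖ ≤ s)).card : ℝ) ≤
      P.card - ‖S‖ := by
    calc (s ^ 2 / 2) * ((P.filter (fun p => ¬ ‖w * v p - 1‖ ≤ s)).card : ℝ)
        = ∑ p ∈ P.filter (fun p => ¬ ‖w * v p - 1‖ ≤ s), s ^ 2 / 2 := by
          rw [Finset.sum_const, nsmul_eq_mul]; ring
      _ ≤ ∑ p ∈ P.filter (fun p => ¬ ‖w * v p - 1‖ ≤ s), (1 - (w * v p).re) :=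
          Finset.sum_le_sum hbad
      _ ≤ ∑ p ∈ P, (1 - (w * v p).re) :=
          Finset.sum_le_sum_of_subset_of_nonneg (Finset.filter_subset _ _)
            (fun p hp _ => hre p hp)
      _ = P.card - ‖S‖ := hsum
  have hcard := Finset.card_filter_add_card_filter_not (s := P) (fun p => ‖w * v p - 1‖ ≤ s)
  have hcard' : ((P.filter (fun p => ‖w * v p - 1‖ ≤ s)).card : ℝ) +
      ((P.filter (fun p => ¬ ‖w * v p - 1‖ ≤ s)).card : ℝ) = P.card := by
    exact_mod_cast hcard
  have hs2 : 0 < s ^ 2 := by positivity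
  by_contra hc
  push Not at hc
  have : (P.card : ℝ) / 2 ≤ ((P.filter (fun p => ¬ ‖w * v p - 1‖ ≤ s)).card : ℝ) := by linarith
  have h5 : s ^ 2 / 4 * P.card ≤ P.card - ‖S‖ := by
    refine le_trans ?_ hcb
    nlinarith
  linarith

theorem pow_sub_one (u : ℂ) (hu : ‖u‖ ≤ 1) (M : ℕ) : ‖u ^ M - 1‖ ≤ M * ‖u - 1‖ := by
  induction M with
  | zero => simp
  | succ M ih =>
    have e : u ^ (M + 1) - 1 = u * (u ^ M - 1) + (u - 1) := by ring
    rw [e]
    calc ‖u * (u ^ M - 1) + (u - 1)‖ ≤ ‖u * (u ^ M - 1)‖ + ‖u - 1‖ := norm_add_le _ _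
      _ ≤ ‖u ^ M - 1‖ + ‖u - 1‖ := by
          rw [norm_mul]
          have := mul_le_mul_of_nonneg_right hu (norm_nonneg (u ^ M - 1))
          linarith
      _ ≤ ((M + 1 : ℕ) : ℝ) * ‖u - 1‖ := by
          push_cast
          linarith

/-- distance of a phase from the multiples of 2π -/
theorem phase (θ δ : ℝ) (h : ‖Complex.exp (Complex.I * θ) - 1‖ ≤ δ) :
    |θ - 2 * Real.pi * (round (θ / (2 * Real.pi)) : ℤ)| ≤ 2 * δ := by
  set m : ℤ := round (θ / (2 * Real.pi)) with hm
  have hpi := Real.pi_pos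
  set t : ℝ := θ - 2 * Real.pi * (m : ℤ) with ht
  have h1 : |t| ≤ Real.pi := by
    have h2 := abs_sub_round (θ / (2 * Real.pi))
    rw [← hm] at h2
    have e : t = (2 * Real.pi) * (θ / (2 * Real.pi) - m) := by
      rw [ht]; field_simp
    rw [e, abs_mul, abs_of_pos (by positivity)]
    nlinarith
  have h3 : Complex.exp (Complex.I * θ) = Complex.exp (Complex.I * t) := by
    have e : Complex.I * (θ : ℂ) = Complex.I * (t : ℂ) + (m : ℂ) * (2 * Real.pi * Complex.I) := by
      rw [ht]; push_cast; ring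
    rw [e, Complex.exp_add, Complex.exp_int_mul_two_pi_mul_I, mul_one]
  rw [h3, Complex.norm_exp_I_mul_ofReal_sub_one, Real.norm_eq_abs, abs_mul,
    abs_of_pos (by norm_num : (0 : ℝ) < 2)] at h
  have h4 : |t / 2| ≤ Real.pi / 2 := by
    rw [abs_div, abs_of_pos (by norm_num : (0 : ℝ) < 2)]
    linarith
  have h5 := Real.mul_abs_le_abs_sin h4
  rw [abs_div, abs_of_pos (by norm_num : (0 : ℝ) < 2)] at h5
  have h6 : Real.pi < 4 := by have := Real.pi_lt_d2; linarith
  have h7 : 2 / Real.pi * (|t| / 2) = |t| / Real.pi := by field_simp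
  rw [h7] at h5
  have h8 : |t| / 4 ≤ |t| / Real.pi :=
    div_le_div_of_nonneg_left (abs_nonneg _) hpi h6.le
  linarith

/-- the covering argument -/
theorem cover (C y : ℝ) (hC : 0 < C) (Y : ℕ) (hY : (Y : ℝ) = y) (hy1 : 1 < y)
    (hBT : ∀ x h : ℝ, y ≤ x → x ≤ 2 * y → y ^ (1 / 3 : ℝ) ≤ h →
      (((Finset.Icc ⌈x⌉₊ ⌊x + h⌋₊).filter Nat.Prime).card : ℝ) ≤ C * h / Real.log y)
    (A δ : ℝ) (hA : 0 < A) (hδ : 0 < δ) (hδA : 4 * δ / A ≤ 1)
    (hh : y ^ (1 / 3 : ℝ) ≤ 16 * δ * y / A) (G : Finset ℕ) (hG : G ⊆ PP Y) (θ : ℝ)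
    (hθ : |θ| = A)
    (hp : ∀ p ∈ G, ∀ q ∈ G,
      ‖Complex.exp (Complex.I * ((θ * (Real.log p - Real.log q) : ℝ) : ℂ)) - 1‖ ≤ δ) :
    (G.card : ℝ) ≤ (A / 4 + 2) * (C * (16 * δ * y / A) / Real.log y) := by
  have hlog : 0 < Real.log y := Real.log_pos hy1
  have hy0 : 0 < y := by linarith
  set B : ℝ := C * (16 * δ * y / A) / Real.log y with hB
  have hB0 : 0 ≤ B := by positivity
  rcases G.eq_empty_or_nonempty with h0 | ⟨p0, hp0⟩
  · rw [h0]
    simp only [Finset.card_empty, Nat.cast_zero]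
    positivity
  have hpr : ∀ p ∈ G, y < p ∧ (p : ℝ) ≤ 2 * y ∧ p.Prime := by
    intro p hpG
    have := hG hpG
    unfold PP at this
    rw [Finset.mem_filter, Finset.mem_Ioc] at this
    refine ⟨?_, ?_, this.2⟩
    · rw [← hY]; exact_mod_cast this.1.1
    · rw [← hY]; exact_mod_cast this.1.2
  have hlogd : ∀ p ∈ G, |Real.log p - Real.log p0| ≤ Real.log 2 := by
    intro p hpG
    obtain ⟨a1, a2, -⟩ := hpr p hpG
    obtain ⟨b1, b2, -⟩ := hpr p0 hp0
    have c1 : Real.log y ≤ Real.log p := Real.log_le_log hy0 a1.le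
    have c2 : Real.log p ≤ Real.log 2 + Real.log y := by
      rw [← Real.log_mul (by norm_num) hy0.ne']
      exact Real.log_le_log (by linarith) a2
    have d1 : Real.log y ≤ Real.log p0 := Real.log_le_log hy0 b1.le
    have d2 : Real.log p0 ≤ Real.log 2 + Real.log y := by
      rw [← Real.log_mul (by norm_num) hy0.ne']
      exact Real.log_le_log (by linarith) b2
    rw [abs_le]
    constructor <;> linarith
  set m : ℕ → ℤ := fun p => round (θ * (Real.log p - Real.log p0) / (2 * Real.pi)) with hm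
  set K : ℕ := ⌊A / 8 + 1 / 2⌋₊ with hK
  have hpi3 := Real.pi_gt_three
  have hmK : ∀ p ∈ G, m p ∈ Finset.Icc (-(K : ℤ)) K := by
    intro p hpG
    have h1 := abs_sub_round (θ * (Real.log p - Real.log p0) / (2 * Real.pi))
    have h2 : |θ * (Real.log p - Real.log p0) / (2 * Real.pi)| ≤ A / 8 := by
      rw [abs_div, abs_mul, hθ, abs_of_pos (by positivity : 0 < 2 * Real.pi)]
      rw [div_le_div_iff₀ (by positivity) (by norm_num)]
      have h3 := hlogd p hpG
      have h4 : Real.log 2 ≤ 0.7 := by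
        have := Real.log_two_lt_d9
        linarith
      have h5 : A * |Real.log p - Real.log p0| ≤ A * 0.7 :=
        mul_le_mul_of_nonneg_left (h3.trans h4) hA.le
      nlinarith
    have h6 : |((m p : ℤ) : ℝ)| ≤ A / 8 + 1 / 2 := by
      have e : ((m p : ℤ) : ℝ) = θ * (Real.log p - Real.log p0) / (2 * Real.pi) -
          (θ * (Real.log p - Real.log p0) / (2 * Real.pi) - (m p : ℤ)) := by ring
      rw [e]
      calc |θ * (Real.log p - Real.log p0) / (2 * Real.pi) -
          (θ * (Real.log p - Real.log p0) / (2 * Real.pi) - (m p : ℤ))|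
          ≤ |θ * (Real.log p - Real.log p0) / (2 * Real.pi)| +
            |θ * (Real.log p - Real.log p0) / (2 * Real.pi) - (m p : ℤ)| := abs_sub _ _
        _ ≤ A / 8 + 1 / 2 := add_le_add h2 h1
    have h7 : (m p).natAbs ≤ K := by
      refine Nat.le_floor ?_
      have : (((m p).natAbs : ℕ) : ℝ) = |((m p : ℤ) : ℝ)| := by
        rw [Nat.cast_natAbs, Int.cast_abs]
      rw [this]
      exact h6
    rw [Finset.mem_Icc]
    omega
  have hfib : ∀ j ∈ Finset.Icc (-(K : ℤ)) K, ((G.filter (fun p => m p = j)).card : ℝ) ≤ B := by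
    intro j _
    rcases (G.filter (fun p => m p = j)).eq_empty_or_nonempty with h0 | hne
    · rw [h0]
      simpa using hB0
    set F := G.filter (fun p => m p = j) with hF
    set p1 := F.min' hne with hp1
    have hp1F : p1 ∈ F := Finset.min'_mem _ _
    have hp1G : p1 ∈ G := (Finset.mem_filter.mp hp1F).1
    obtain ⟨a1, a2, -⟩ := hpr p1 hp1G
    have hsub : F ⊆ (Finset.Icc ⌈(p1 : ℝ)⌉₊ ⌊(p1 : ℝ) + 16 * δ * y / A⌋₊).filter Nat.Prime := by
      intro p hpF
      have hpG : p ∈ G := (Finset.mem_filter.mp hpF).1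
      obtain ⟨b1, b2, b3⟩ := hpr p hpG
      have hle : p1 ≤ p := Finset.min'_le _ _ hpF
      rw [Finset.mem_filter, Finset.mem_Icc]
      refine ⟨⟨?_, ?_⟩, b3⟩
      · rw [Nat.ceil_natCast]
        exact hle
      · refine Nat.le_floor ?_
        have c1 := phase _ _ (hp p hpG p0 hp0)
        have c2 := phase _ _ (hp p1 hp1G p0 hp0)
        have e1 : round (θ * (Real.log p - Real.log p0) / (2 * Real.pi)) = j :=
          (Finset.mem_filter.mp hpF).2
        have e2 : round (θ * (Real.log p1 - Real.log p0) / (2 * Real.pi)) = j :=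
          (Finset.mem_filter.mp hp1F).2
        rw [e1] at c1
        rw [e2] at c2
        have c3 : |θ * (Real.log p - Real.log p1)| ≤ 4 * δ := by
          have e : θ * (Real.log p - Real.log p1) =
              (θ * (Real.log p - Real.log p0) - 2 * Real.pi * (j : ℤ)) -
              (θ * (Real.log p1 - Real.log p0) - 2 * Real.pi * (j : ℤ)) := by ring
          rw [e]
          refine (abs_sub _ _).trans ?_
          linarith
        rw [abs_mul, hθ] at c3
        have c4 : Real.log p - Real.log p1 ≤ 4 * δ / A := by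
          rw [le_div_iff₀ hA]
          have := le_abs_self (Real.log p - Real.log p1)
          nlinarith
        have hp1pos : (0 : ℝ) < p1 := by linarith
        have hppos : (0 : ℝ) < p := by linarith
        set t := 4 * δ / A with ht
        have ht0 : 0 < t := by positivity
        have c5 : (p : ℝ) ≤ p1 * Real.exp t := by
          have : (p : ℝ) = Real.exp (Real.log p) := (Real.exp_log hppos).symm
          rw [this]
          calc Real.exp (Real.log p) ≤ Real.exp (Real.log p1 + t) :=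
                Real.exp_le_exp.mpr (by linarith)
            _ = p1 * Real.exp t := by rw [Real.exp_add, Real.exp_log hp1pos]
        have c6 : Real.exp t ≤ 1 + 2 * t := by
          have h8 := Real.abs_exp_sub_one_le (x := t) (by rw [abs_of_pos ht0]; exact hδA)
          rw [abs_of_pos ht0] at h8
          have := le_abs_self (Real.exp t - 1)
          linarith
        calc (p : ℝ) ≤ p1 * Real.exp t := c5
          _ ≤ p1 * (1 + 2 * t) := mul_le_mul_of_nonneg_left c6 hp1pos.le
          _ = p1 + p1 * (2 * t) := by ring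
          _ ≤ p1 + (2 * y) * (2 * t) := by
              have := mul_le_mul_of_nonneg_right a2 (show 0 ≤ 2 * t by positivity)
              linarith
          _ = p1 + 16 * δ * y / A := by rw [ht]; ring
    calc (F.card : ℝ) ≤
        (((Finset.Icc ⌈(p1 : ℝ)⌉₊ ⌊(p1 : ℝ) + 16 * δ * y / A⌋₊).filter Nat.Prime).card : ℝ) := by
          exact_mod_cast Finset.card_le_card hsub
      _ ≤ B := hBT p1 _ a1.le a2 hh
  have hsum : (G.card : ℝ) = ∑ j ∈ Finset.Icc (-(K : ℤ)) K,
      ((G.filter (fun p => m p = j)).card : ℝ) := by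
    have := Finset.card_eq_sum_card_fiberwise (f := m) (s := G)
      (t := Finset.Icc (-(K : ℤ)) K) (fun p hp => hmK p hp)
    rw [this]
    push_cast
    rfl
  have hKle : (2 * K + 1 : ℝ) ≤ A / 4 + 2 := by
    have := Nat.floor_le (show 0 ≤ A / 8 + 1 / 2 by positivity)
    rw [← hK] at this
    linarith
  rw [hsum]
  calc ∑ j ∈ Finset.Icc (-(K : ℤ)) K, ((G.filter (fun p => m p = j)).card : ℝ)
      ≤ ∑ j ∈ Finset.Icc (-(K : ℤ)) K, B := Finset.sum_le_sum hfib
    _ = (2 * K + 1 : ℝ) * B := by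
        rw [Finset.sum_const, nsmul_eq_mul, Int.card_Icc]
        congr 1
        have : ((K : ℤ) + 1 - -(K : ℤ)).toNat = 2 * K + 1 := by omega
        rw [this]
        push_cast
        ring
    _ ≤ (A / 4 + 2) * B := mul_le_mul_of_nonneg_right hKle hB0

end CC3h

theorem T2_CC3 (hBT : P_BT) (hNB : P_NB) : P_CC3 := by
  intro M hM
  obtain ⟨C, yb, hC, hBT⟩ := hBT
  obtain ⟨-, y1, hy1⟩ := hNB
  have hM' : (1 : ℝ) ≤ M := by exact_mod_cast hM
  set C' := max C 1 with hC'
  have hC1 : 1 ≤ C' := le_max_right _ _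
  have hCC : C ≤ C' := le_max_left _ _
  set δ : ℝ := 1 / (2000 * C') with hδ
  have hδ0 : 0 < δ := by positivity
  have hδ1 : δ ≤ 1 / 2000 := by
    rw [hδ]
    exact div_le_div_of_nonneg_left (by norm_num) (by norm_num) (by linarith)
  have hCδ : C * δ ≤ 1 / 2000 := by
    rw [hδ, mul_one_div, div_le_div_iff₀ (by positivity) (by norm_num)]
    nlinarith
  set s : ℝ := δ / (2 * M) with hs
  have hs0 : 0 < s := by positivity
  have hs1 : s ≤ 1 / 2000 := by
    rw [hs]
    calc δ / (2 * M) ≤ δ / 1 := div_le_div_of_nonneg_left hδ0.le (by norm_num) (by linarith)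
      _ ≤ 1 / 2000 := by rw [div_one]; exact hδ1
  have hs2 : s ^ 2 / 4 ≤ 1 / 20 := by nlinarith
  refine ⟨s ^ 2 / 4, by positivity, by linarith, ?_⟩
  -- y large
  have e1 : ∀ᶠ y : ℕ in atTop, (M : ℝ) / (16 * δ) ≤ (y : ℝ) ^ (1 / 6 : ℝ) :=
    ((tendsto_rpow_atTop (by norm_num)).comp tendsto_natCast_atTop_atTop).eventually_ge_atTop _
  have e2 : ∀ᶠ y : ℕ in atTop, yb ≤ (y : ℝ) := tendsto_natCast_atTop_atTop.eventually_ge_atTop _
  obtain ⟨y0, hy0⟩ := eventually_atTop.mp
    (e1.and (e2.and ((eventually_ge_atTop y1).and (eventually_ge_atTop 2))))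
  refine ⟨y0, fun y hy x hx hsum ξ hξ => ?_⟩
  obtain ⟨g1, g2, g3, g4⟩ := hy0 y hy
  obtain ⟨hP1, hP2⟩ := hy1 y g3
  have hyr : (2 : ℝ) ≤ y := by exact_mod_cast g4
  have hypos : (0 : ℝ) < y := by linarith
  have hlogy : 0 < Real.log y := Real.log_pos (by linarith)
  set N : ℝ := ((PP y).card : ℝ) with hN
  have hNpos : 0 < N := lt_of_lt_of_le (by positivity) hP1
  have hnx : ∀ p ∈ PP y, ‖x p‖ ≤ 1 := by
    intro p hp
    rcases hx p hp with h | h
    · rw [h]; simp
    · have : ‖x p‖ ^ M = 1 := by rw [← norm_pow, h, norm_one]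
      exact (pow_eq_one_iff_of_nonneg (norm_nonneg _) (by omega)).mp this |>.le
  have hexp : ∀ r : ℝ, ‖Complex.exp (r * Complex.I)‖ = 1 := fun r => Complex.norm_exp_ofReal_mul_I r
  by_cases hξs : |ξ| < 1 / 20
  · -- small ξ
    have key : ∀ p ∈ PP y, ‖x p * Complex.exp (ξ * Real.log p * Complex.I) -
        x p * Complex.exp (ξ * Real.log y * Complex.I)‖ ≤ 1 / 20 := by
      intro p hp
      have hpm : (y : ℝ) < p ∧ (p : ℝ) ≤ 2 * y := by
        unfold PP at hp
        rw [Finset.mem_filter, Finset.mem_Ioc] at hp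
        exact ⟨by exact_mod_cast hp.1.1, by exact_mod_cast hp.1.2⟩
      have c1 : Real.log y ≤ Real.log p := Real.log_le_log hypos hpm.1.le
      have c2 : Real.log p ≤ Real.log 2 + Real.log y := by
        rw [← Real.log_mul (by norm_num) hypos.ne']
        exact Real.log_le_log (by linarith) hpm.2
      have c3 : Real.log 2 ≤ 1 := by
        have := Real.log_two_lt_d9
        linarith
      have e : x p * Complex.exp (ξ * Real.log p * Complex.I) -
          x p * Complex.exp (ξ * Real.log y * Complex.I) =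
          x p * Complex.exp (((ξ * Real.log y : ℝ) : ℂ) * Complex.I) *
            (Complex.exp (Complex.I * ((ξ * (Real.log p - Real.log y) : ℝ) : ℂ)) - 1) := by
        rw [mul_sub, mul_one, mul_assoc (x p), ← Complex.exp_add]
        push_cast
        congr 3
        ring
      rw [e, norm_mul, norm_mul, hexp, mul_one]
      have c4 := Real.norm_exp_I_mul_ofReal_sub_one_le (x := ξ * (Real.log p - Real.log y))
      have c5 : ‖ξ * (Real.log p - Real.log y)‖ ≤ 1 / 20 := by
        rw [Real.norm_eq_abs, abs_mul]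
        have c6 : |Real.log p - Real.log y| ≤ 1 := by
          rw [abs_le]; constructor <;> linarith
        calc |ξ| * |Real.log p - Real.log y| ≤ (1 / 20) * 1 :=
              mul_le_mul hξs.le c6 (abs_nonneg _) (by norm_num)
          _ = 1 / 20 := by norm_num
      calc ‖x p‖ * ‖Complex.exp (Complex.I * ((ξ * (Real.log p - Real.log y) : ℝ) : ℂ)) - 1‖
          ≤ 1 * (1 / 20) := mul_le_mul (hnx p hp) (c4.trans c5) (norm_nonneg _) (by norm_num)
        _ = 1 / 20 := by norm_num
    have e : ∑ p ∈ PP y, x p * Complex.exp (ξ * Real.log p * Complex.I) =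
        (∑ p ∈ PP y, x p) * Complex.exp (((ξ * Real.log y : ℝ) : ℂ) * Complex.I) +
        ∑ p ∈ PP y, (x p * Complex.exp (ξ * Real.log p * Complex.I) -
          x p * Complex.exp (ξ * Real.log y * Complex.I)) := by
      rw [Finset.sum_sub_distrib, Finset.sum_mul]
      push_cast
      ring
    rw [e]
    calc ‖(∑ p ∈ PP y, x p) * Complex.exp (((ξ * Real.log y : ℝ) : ℂ) * Complex.I) +
        ∑ p ∈ PP y, (x p * Complex.exp (ξ * Real.log p * Complex.I) -
          x p * Complex.exp (ξ * Real.log y * Complex.I))‖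
        ≤ ‖(∑ p ∈ PP y, x p) * Complex.exp (((ξ * Real.log y : ℝ) : ℂ) * Complex.I)‖ +
          ‖∑ p ∈ PP y, (x p * Complex.exp (ξ * Real.log p * Complex.I) -
          x p * Complex.exp (ξ * Real.log y * Complex.I))‖ := norm_add_le _ _
      _ ≤ (9 / 10) * N + N * (1 / 20) := by
          refine add_le_add ?_ ?_
          · rw [norm_mul, hexp, mul_one]
            exact hsum
          · refine (norm_sum_le_of_le _ key).trans ?_
            rw [Finset.sum_const, nsmul_eq_mul]
      _ = (1 - 1 / 20) * N := by ring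
      _ ≤ (1 - s ^ 2 / 4) * N := mul_le_mul_of_nonneg_right (by linarith) hNpos.le
  · -- large ξ
    push Not at hξs
    by_contra hcon
    push Not at hcon
    set v : ℕ → ℂ := fun p => x p * Complex.exp (ξ * Real.log p * Complex.I) with hv
    have hexp' : ∀ p : ℕ, ‖Complex.exp ((ξ : ℂ) * (Real.log p : ℂ) * Complex.I)‖ = 1 := by
      intro p
      have := hexp (ξ * Real.log p)
      rwa [Complex.ofReal_mul] at this
    have hv1 : ∀ p ∈ PP y, ‖v p‖ ≤ 1 := by
      intro p hp
      rw [hv]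
      simp only
      rw [norm_mul, hexp', mul_one]
      exact hnx p hp
    obtain ⟨w, hw1, hcard⟩ := CC3h.good_set (PP y) v hv1 s hs0 (by linarith) hcon
    set G := (PP y).filter (fun p => ‖w * v p - 1‖ ≤ s) with hG
    set A : ℝ := M * |ξ| with hA
    have hA0 : 1 / 20 ≤ A := by
      rw [hA]
      calc (1 / 20 : ℝ) ≤ 1 * |ξ| := by rw [one_mul]; exact hξs
        _ ≤ M * |ξ| := mul_le_mul_of_nonneg_right hM' (abs_nonneg _)
    have hApos : 0 < A := by linarith
    -- M-th powers
    have hMp : ∀ p ∈ G, ‖w ^ M * Complex.exp (Complex.I * ((M * ξ * Real.log p : ℝ) : ℂ)) - 1‖ ≤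
        δ / 2 := by
      intro p hpG
      rw [hG, Finset.mem_filter] at hpG
      obtain ⟨hpP, hps⟩ := hpG
      have hu1 : ‖w * v p‖ ≤ 1 := by rw [norm_mul, hw1, one_mul]; exact hv1 p hpP
      have hxM : x p ^ M = 1 := by
        rcases hx p hpP with h | h
        · exfalso
          rw [hv] at hps
          simp only [h, zero_mul, mul_zero, zero_sub, norm_neg, norm_one] at hps
          linarith
        · exact h
      have h1 := CC3h.pow_sub_one (w * v p) hu1 M
      have e : (w * v p) ^ M =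
          w ^ M * Complex.exp (Complex.I * ((M * ξ * Real.log p : ℝ) : ℂ)) := by
        rw [hv]
        simp only
        rw [mul_pow, mul_pow, hxM, one_mul, ← Complex.exp_nat_mul]
        push_cast
        congr 2
        ring
      rw [e] at h1
      calc ‖w ^ M * Complex.exp (Complex.I * ((M * ξ * Real.log p : ℝ) : ℂ)) - 1‖
          ≤ M * ‖w * v p - 1‖ := h1
        _ ≤ M * s := mul_le_mul_of_nonneg_left hps (by linarith)
        _ = δ / 2 := by rw [hs]; field_simp
    have hwM : ‖w ^ M‖ = 1 := by rw [norm_pow, hw1, one_pow]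
    have hpq : ∀ p ∈ G, ∀ q ∈ G,
        ‖Complex.exp (Complex.I * (((M * ξ) * (Real.log p - Real.log q) : ℝ) : ℂ)) - 1‖ ≤ δ := by
      intro p hpG q hqG
      have h1 := hMp p hpG
      have h2 := hMp q hqG
      set Ep := Complex.exp (Complex.I * ((M * ξ * Real.log p : ℝ) : ℂ)) with hEp
      set Eq := Complex.exp (Complex.I * ((M * ξ * Real.log q : ℝ) : ℂ)) with hEq
      have hEq1 : ‖Eq‖ = 1 := by
        rw [hEq, mul_comm]
        exact hexp _
      have h3 : ‖Ep - Eq‖ ≤ δ := by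
        calc ‖Ep - Eq‖ = ‖w ^ M * (Ep - Eq)‖ := by rw [norm_mul, hwM, one_mul]
          _ = ‖(w ^ M * Ep - 1) - (w ^ M * Eq - 1)‖ := by congr 1; ring
          _ ≤ ‖w ^ M * Ep - 1‖ + ‖w ^ M * Eq - 1‖ := norm_sub_le _ _
          _ ≤ δ := by linarith
      have h4 : Complex.exp (Complex.I * (((M * ξ) * (Real.log p - Real.log q) : ℝ) : ℂ)) * Eq =
          Ep := by
        rw [hEp, hEq, ← Complex.exp_add]
        congr 1
        push_cast
        ring
      calc ‖Complex.exp (Complex.I * (((M * ξ) * (Real.log p - Real.log q) : ℝ) : ℂ)) - 1‖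
          = ‖(Complex.exp (Complex.I * (((M * ξ) * (Real.log p - Real.log q) : ℝ) : ℂ)) - 1) *
            Eq‖ := by rw [norm_mul, hEq1, mul_one]
        _ = ‖Ep - Eq‖ := by rw [sub_mul, one_mul, h4]
        _ ≤ δ := h3
    have hδA : 4 * δ / A ≤ 1 := by
      rw [div_le_one hApos]
      linarith
    have hsq : (y : ℝ) ^ (1 / 2 : ℝ) = √(y : ℝ) := by rw [Real.sqrt_eq_rpow]
    have hh : (y : ℝ) ^ (1 / 3 : ℝ) ≤ 16 * δ * y / A := by
      rw [le_div_iff₀ hApos]
      have a1 : A ≤ M * √(y : ℝ) := mul_le_mul_of_nonneg_left hξ (by linarith)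
      have a2 : (M : ℝ) ≤ 16 * δ * (y : ℝ) ^ (1 / 6 : ℝ) := by
        rw [div_le_iff₀ (by positivity)] at g1
        linarith
      calc (y : ℝ) ^ (1 / 3 : ℝ) * A ≤ (y : ℝ) ^ (1 / 3 : ℝ) * (M * √(y : ℝ)) :=
            mul_le_mul_of_nonneg_left a1 (by positivity)
        _ ≤ (y : ℝ) ^ (1 / 3 : ℝ) * ((16 * δ * (y : ℝ) ^ (1 / 6 : ℝ)) * √(y : ℝ)) := by
            refine mul_le_mul_of_nonneg_left ?_ (by positivity)
            exact mul_le_mul_of_nonneg_right a2 (by positivity)
        _ = 16 * δ * ((y : ℝ) ^ (1 / 3 : ℝ) * (y : ℝ) ^ (1 / 6 : ℝ) * (y : ℝ) ^ (1 / 2 : ℝ)) := by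
            rw [hsq]; ring
        _ = 16 * δ * y := by
            rw [← Real.rpow_add hypos, ← Real.rpow_add hypos]
            norm_num
    have hcov := CC3h.cover C y hC y rfl (by linarith)
      (fun x' h' h1' h2' h3' => hBT x' h' y g2 h1' h2' h3') A δ hApos hδ0 hδA hh G
      (Finset.filter_subset _ _) (M * ξ) (by rw [abs_mul, Nat.abs_cast]) hpq
    -- final inequality
    have hfin : (A / 4 + 2) * (C * (16 * δ * y / A) / Real.log y) ≤ (4 / 10) * y / Real.log y := by
      have e : (A / 4 + 2) * (C * (16 * δ * y / A) / Real.log y) =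
          ((A / 4 + 2) / A) * (16 * (C * δ)) * (y / Real.log y) := by
        field_simp
      have e2 : (A / 4 + 2) / A ≤ 41 := by
        rw [div_le_iff₀ hApos]
        linarith
      have hyl : 0 < (y : ℝ) / Real.log y := by positivity
      rw [e]
      calc ((A / 4 + 2) / A) * (16 * (C * δ)) * (y / Real.log y)
          ≤ 41 * (16 * (1 / 2000)) * (y / Real.log y) := by
            refine mul_le_mul_of_nonneg_right ?_ hyl.le
            refine mul_le_mul e2 (by linarith) (by positivity) (by norm_num)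
        _ ≤ (4 / 10) * (y / Real.log y) := by
            refine mul_le_mul_of_nonneg_right (by norm_num) hyl.le
        _ = (4 / 10) * y / Real.log y := by ring
    have hlast : (4 / 10) * y / Real.log y < (9 / 10 : ℝ) * y / Real.log y / 2 := by
      have hyl : 0 < (y : ℝ) / Real.log y := by positivity
      have e3 : (4 / 10) * y / Real.log y = (4 / 10) * (y / Real.log y) := by ring
      have e4 : (9 / 10 : ℝ) * y / Real.log y / 2 = (9 / 20) * (y / Real.log y) := by ring
      rw [e3, e4]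
      linarith
    linarith

end Run7.h694.CG
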