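import Pool.Agent.H38R2.CG2.Stubs

/-!
Pieces COMB (P2_COMB, P2_PAIR) of the class group project.
-/

set_option autoImplicit false

namespace Run7.h694.CG

open Finset Filter Pool.Agent.H38R2.CG Pool.Agent.H38R2.CG2
open scoped Classical

namespace COMBh

/-- one step down in the binomial coefficients -/
theorem choose_step (n k i : ℕ) (hn : 1 ≤ n) (hk : 2 * k ≤ n) (hi : i + 1 ≤ k) :
    (n.choose (k - (i + 1)) : ℝ) ≤ (2 * k / n : ℝ) * (n.choose (k - i) : ℝ) := by
  have h1 := Nat.choose_succ_right_eq n (k - (i + 1))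
  have e1 : k - (i + 1) + 1 = k - i := by omega
  rw [e1] at h1
  have h2 : ((n.choose (k - i) : ℕ) : ℝ) * ((k - i : ℕ) : ℝ) =
      (n.choose (k - (i + 1)) : ℝ) * ((n - (k - (i + 1)) : ℕ) : ℝ) := by exact_mod_cast h1
  have hn' : (0 : ℝ) < n := by exact_mod_cast hn
  have h3 : (n : ℝ) / 2 ≤ ((n - (k - (i + 1)) : ℕ) : ℝ) := by
    rw [div_le_iff₀ (by norm_num)]
    have : n ≤ (n - (k - (i + 1))) * 2 := by omega
    exact_mod_cast this
  have h4 : ((k - i : ℕ) : ℝ) ≤ k := by exact_mod_cast Nat.sub_le k i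
  have h5 : (n.choose (k - (i + 1)) : ℝ) * ((n : ℝ) / 2) ≤ (n.choose (k - i) : ℝ) * k := by
    calc (n.choose (k - (i + 1)) : ℝ) * ((n : ℝ) / 2)
        ≤ (n.choose (k - (i + 1)) : ℝ) * ((n - (k - (i + 1)) : ℕ) : ℝ) :=
          mul_le_mul_of_nonneg_left h3 (Nat.cast_nonneg _)
      _ = (n.choose (k - i) : ℝ) * ((k - i : ℕ) : ℝ) := h2.symm
      _ ≤ (n.choose (k - i) : ℝ) * k := mul_le_mul_of_nonneg_left h4 (Nat.cast_nonneg _)
  have h6 : (2 * k / n : ℝ) * (n.choose (k - i) : ℝ) = (n.choose (k - i) : ℝ) * k / (n / 2) := by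
    field_simp
  rw [h6, le_div_iff₀ (by positivity)]
  exact h5

theorem choose_down (n k : ℕ) (hn : 1 ≤ n) (hk : 2 * k ≤ n) : ∀ i : ℕ, i ≤ k →
    (n.choose (k - i) : ℝ) ≤ (2 * k / n : ℝ) ^ i * (n.choose k : ℝ) := by
  intro i
  induction i with
  | zero => intro _; simp
  | succ i ih =>
    intro hi
    have h1 := choose_step n k i hn hk hi
    have h2 := ih (by omega)
    calc (n.choose (k - (i + 1)) : ℝ) ≤ (2 * k / n : ℝ) * (n.choose (k - i) : ℝ) := h1
      _ ≤ (2 * k / n : ℝ) * ((2 * k / n : ℝ) ^ i * (n.choose k : ℝ)) :=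
          mul_le_mul_of_nonneg_left h2 (by positivity)
      _ = (2 * k / n : ℝ) ^ (i + 1) * (n.choose k : ℝ) := by ring

theorem tail (x : ℝ) (hx : 0 ≤ x) (i0 k : ℕ) :
    ∑ i ∈ Finset.Icc (i0 + 1) k, x ^ i / (i.factorial : ℝ) ≤ x ^ (i0 + 1) * Real.exp x := by
  by_cases hk : i0 + 1 ≤ k
  · have e : Finset.Icc (i0 + 1) k = Finset.Ico (i0 + 1) (k + 1) := by
      ext j
      rw [Finset.mem_Icc, Finset.mem_Ico]
      omega
    rw [e, Finset.sum_Ico_eq_sum_range]
    calc ∑ j ∈ Finset.range (k + 1 - (i0 + 1)), x ^ (i0 + 1 + j) / ((i0 + 1 + j).factorial : ℝ)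
        ≤ ∑ j ∈ Finset.range (k + 1 - (i0 + 1)), x ^ (i0 + 1) * (x ^ j / (j.factorial : ℝ)) := by
          refine Finset.sum_le_sum fun j _ => ?_
          rw [pow_add, mul_div_assoc]
          refine mul_le_mul_of_nonneg_left ?_ (by positivity)
          refine div_le_div_of_nonneg_left (by positivity) (by positivity) ?_
          exact_mod_cast Nat.factorial_le (by omega)
      _ = x ^ (i0 + 1) * ∑ j ∈ Finset.range (k + 1 - (i0 + 1)), x ^ j / (j.factorial : ℝ) := by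
          rw [Finset.mul_sum]
      _ ≤ x ^ (i0 + 1) * Real.exp x :=
          mul_le_mul_of_nonneg_left (Real.sum_le_exp_of_nonneg hx _) (by positivity)
  · rw [Finset.Icc_eq_empty (by omega), Finset.sum_empty]
    positivity

end COMBh

theorem T2_COMB : P2_COMB := by
  intro n k i0 B hB hn hk
  have hn' : (0 : ℝ) < n := by exact_mod_cast hn
  have key : ∀ i ∈ Finset.Icc (i0 + 1) k,
      (n.choose i : ℝ) * B ^ i * (n.choose (k - i) : ℝ) ^ 2 ≤
      ((4 * B * k ^ 2 / n : ℝ) ^ i / (i.factorial : ℝ)) * (n.choose k : ℝ) ^ 2 := by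
    intro i hi
    rw [Finset.mem_Icc] at hi
    have h1 := COMBh.choose_down n k hn hk i hi.2
    have h2 : (n.choose i : ℝ) ≤ (n : ℝ) ^ i / (i.factorial : ℝ) := Nat.choose_le_pow_div i n
    have h3 : (n.choose (k - i) : ℝ) ^ 2 ≤ ((2 * k / n : ℝ) ^ i * (n.choose k : ℝ)) ^ 2 :=
      pow_le_pow_left₀ (Nat.cast_nonneg _) h1 2
    calc (n.choose i : ℝ) * B ^ i * (n.choose (k - i) : ℝ) ^ 2
        ≤ ((n : ℝ) ^ i / (i.factorial : ℝ)) * B ^ i * ((2 * k / n : ℝ) ^ i * (n.choose k : ℝ)) ^ 2 := by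
          refine mul_le_mul ?_ h3 (by positivity) (by positivity)
          exact mul_le_mul_of_nonneg_right h2 (by positivity)
      _ = ((4 * B * k ^ 2 / n : ℝ) ^ i / (i.factorial : ℝ)) * (n.choose k : ℝ) ^ 2 := by
          have e : (4 * B * k ^ 2 / n : ℝ) = n * B * (2 * k / n) ^ 2 := by
            field_simp
            ring
          rw [e]
          generalize (2 * (k : ℝ) / n) = r
          rw [mul_pow, mul_pow]
          ring
  calc ∑ i ∈ Finset.Icc (i0 + 1) k, (n.choose i : ℝ) * B ^ i * (n.choose (k - i) : ℝ) ^ 2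
      ≤ ∑ i ∈ Finset.Icc (i0 + 1) k,
        ((4 * B * k ^ 2 / n : ℝ) ^ i / (i.factorial : ℝ)) * (n.choose k : ℝ) ^ 2 :=
        Finset.sum_le_sum key
    _ = (∑ i ∈ Finset.Icc (i0 + 1) k, (4 * B * k ^ 2 / n : ℝ) ^ i / (i.factorial : ℝ)) *
        (n.choose k : ℝ) ^ 2 := by rw [Finset.sum_mul]
    _ ≤ (4 * B * k ^ 2 / n) ^ (i0 + 1) * Real.exp (4 * B * k ^ 2 / n) * (n.choose k : ℝ) ^ 2 :=
        mul_le_mul_of_nonneg_right (COMBh.tail _ (by positivity) _ _) (by positivity)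

theorem T2_PAIR : P2_PAIR := by
  intro P k A hA
  set T : Finset (Σ _ : Finset ℕ, Finset ℕ × Finset ℕ) :=
    (P.powerset.filter (fun c => c.card ≤ k)).sigma
      (fun c => P.powersetCard (k - c.card) ×ˢ P.powersetCard (k - c.card)) with hT
  have hR : ∑ c ∈ P.powerset.filter (fun c => c.card ≤ k), ∑ s ∈ P.powersetCard (k - c.card),
      ∑ t ∈ P.powersetCard (k - c.card), A c s t = ∑ x ∈ T, A x.1 x.2.1 x.2.2 := by
    rw [hT, Finset.sum_sigma]
    refine Finset.sum_congr rfl fun c _ => ?_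
    rw [Finset.sum_product]
  have hL : ∑ s ∈ P.powersetCard k, ∑ t ∈ P.powersetCard k, A (s ∩ t) (s \ t) (t \ s) =
      ∑ x ∈ P.powersetCard k ×ˢ P.powersetCard k, A (x.1 ∩ x.2) (x.1 \ x.2) (x.2 \ x.1) := by
    rw [Finset.sum_product]
  rw [hR, hL]
  set g : Finset ℕ × Finset ℕ → (Σ _ : Finset ℕ, Finset ℕ × Finset ℕ) :=
    fun x => ⟨x.1 ∩ x.2, (x.1 \ x.2, x.2 \ x.1)⟩ with hg
  have hinj : Set.InjOn g ↑(P.powersetCard k ×ˢ P.powersetCard k) := by
    rintro ⟨s, t⟩ _ ⟨s', t'⟩ _ h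
    simp only [hg, Sigma.mk.injEq, heq_eq_eq, Prod.mk.injEq] at h
    obtain ⟨h1, h2, h3⟩ := h
    have e1 : s = (s ∩ t) ∪ (s \ t) := by
      rw [Finset.union_comm]; exact (Finset.sdiff_union_inter s t).symm
    have e2 : s' = (s' ∩ t') ∪ (s' \ t') := by
      rw [Finset.union_comm]; exact (Finset.sdiff_union_inter s' t').symm
    have e3 : t = (s ∩ t) ∪ (t \ s) := by
      rw [Finset.union_comm, Finset.inter_comm]; exact (Finset.sdiff_union_inter t s).symm
    have e4 : t' = (s' ∩ t') ∪ (t' \ s') := by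
      rw [Finset.union_comm, Finset.inter_comm]; exact (Finset.sdiff_union_inter t' s').symm
    refine Prod.ext ?_ ?_
    · show s = s'
      rw [e1, e2, h1, h2]
    · show t = t'
      rw [e3, e4, h1, h3]
  have hmaps : ∀ x ∈ P.powersetCard k ×ˢ P.powersetCard k, g x ∈ T := by
    rintro ⟨s, t⟩ hx
    rw [Finset.mem_product, Finset.mem_powersetCard, Finset.mem_powersetCard] at hx
    obtain ⟨⟨hs, hsk⟩, ⟨ht, htk⟩⟩ := hx
    simp only at hs hsk ht htk
    simp only [hg, hT, Finset.mem_sigma, Finset.mem_filter, Finset.mem_powerset,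
      Finset.mem_product, Finset.mem_powersetCard]
    have c1 : (s ∩ t).card ≤ k := hsk ▸ Finset.card_le_card Finset.inter_subset_left
    have c2 := Finset.card_sdiff_add_card_inter s t
    have c3 := Finset.card_sdiff_add_card_inter t s
    rw [Finset.inter_comm t s] at c3
    exact ⟨⟨Finset.inter_subset_left.trans hs, c1⟩,
      ⟨Finset.sdiff_subset.trans hs, by omega⟩, ⟨Finset.sdiff_subset.trans ht, by omega⟩⟩
  calc ∑ x ∈ P.powersetCard k ×ˢ P.powersetCard k, A (x.1 ∩ x.2) (x.1 \ x.2) (x.2 \ x.1)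
      = ∑ x ∈ P.powersetCard k ×ˢ P.powersetCard k, A (g x).1 (g x).2.1 (g x).2.2 := rfl
    _ = ∑ x ∈ (P.powersetCard k ×ˢ P.powersetCard k).image g, A x.1 x.2.1 x.2.2 := by
        rw [Finset.sum_image hinj]
    _ ≤ ∑ x ∈ T, A x.1 x.2.1 x.2.2 := by
        refine Finset.sum_le_sum_of_subset_of_nonneg ?_ ?_
        · intro x hx
          rw [Finset.mem_image] at hx
          obtain ⟨y, hy, rfl⟩ := hx
          exact hmaps y hy
        · rintro ⟨c, s, t⟩ hx _
          simp only [hT, Finset.mem_sigma, Finset.mem_filter, Finset.mem_powerset,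
            Finset.mem_product, Finset.mem_powersetCard] at hx
          exact hA c s t hx.1.1 hx.2.1.1 hx.2.2.1

end Run7.h694.CG
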