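import Pool.Agent.Run7.h694.CG.Par

/-!
Piece NUM1 (P2_SZ) of the class group project: size of the products.
-/

set_option autoImplicit false

namespace Run7.h694.CG

open Finset Filter Pool.Agent.H38R2.CG Pool.Agent.H38R2.CG2
open scoped Classical

theorem T2_SZ : P2_SZ := by
  intro a ha
  have hc0 := Par.cc_pos ha
  have hth1 := Par.th_lt ha
  have hth0 := Par.th_gt ha
  obtain ⟨X0, hX0⟩ := Filter.eventually_atTop.mp (Par.ev ha (cc a / 3) (by positivity))
  refine ⟨X0, fun X hX c s hc hs hcard => ?_⟩
  obtain ⟨h1, h2, h3, h4, h5, -, -, -, hX1, hy0⟩ := hX0 X hX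
  set L := Real.log (X : ℝ) with hL
  set l := Real.log (yA a X : ℝ) with hl
  have hL0 : 0 < L := by linarith
  have hl0 : 0 < l := by linarith
  have hk1 : th a * L / l ≤ kA a X := Par.kA_ge X
  have hk2 : (kA a X : ℝ) ≤ th a * L / l + 1 := Par.kA_le X (by positivity)
  have hpr : ∀ s : Finset ℕ, s ⊆ PA a X → ∀ p ∈ s, (yA a X : ℝ) ≤ p ∧ (p : ℝ) ≤ 2 * yA a X := by
    intro s hs p hp
    have := hs hp
    unfold PA PP at this
    rw [Finset.mem_filter, Finset.mem_Ioc] at this
    constructor
    · exact_mod_cast this.1.1.le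
    · exact_mod_cast this.1.2
  have hlow : ∀ s : Finset ℕ, s ⊆ PA a X → (yA a X : ℝ) ^ s.card ≤ prodS s := by
    intro s hs
    unfold prodS
    push_cast
    calc (yA a X : ℝ) ^ s.card = ∏ p ∈ s, (yA a X : ℝ) := by rw [Finset.prod_const]
      _ ≤ ∏ p ∈ s, (p : ℝ) :=
        Finset.prod_le_prod (fun _ _ => hy0.le) (fun p hp => (hpr s hs p hp).1)
  have hupp : ∀ s : Finset ℕ, s ⊆ PA a X → (prodS s : ℝ) ≤ (2 * yA a X : ℝ) ^ s.card := by
    intro s hs
    unfold prodS
    push_cast
    calc ∏ p ∈ s, (p : ℝ) ≤ ∏ p ∈ s, (2 * yA a X : ℝ) :=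
        Finset.prod_le_prod (fun p hp => hy0.le.trans (hpr s hs p hp).1)
          (fun p hp => (hpr s hs p hp).2)
      _ = (2 * yA a X : ℝ) ^ s.card := by rw [Finset.prod_const]
  have h7 : 0 ≤ Real.log 2 := (Real.log_pos (by norm_num)).le
  have h6 : Real.log 2 ≤ 1 := by
    have := Real.log_two_lt_d9
    linarith
  constructor
  · calc (X : ℝ) ^ (th a) = Real.exp (th a * L) := by
          rw [Real.rpow_def_of_pos hX1]; congr 1; ring
      _ ≤ Real.exp (kA a X * l) := by
          apply Real.exp_le_exp.mpr
          have : th a * L = th a * L / l * l := by field_simp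
          rw [this]
          exact mul_le_mul_of_nonneg_right hk1 hl0.le
      _ = (yA a X : ℝ) ^ (kA a X) := by
          rw [← Real.rpow_natCast, Real.rpow_def_of_pos hy0]; congr 1; ring
      _ = (yA a X : ℝ) ^ c.card * (yA a X : ℝ) ^ s.card := by rw [← pow_add, hcard]
      _ ≤ (prodS c : ℝ) * prodS s := mul_le_mul (hlow c hc) (hlow s hs) (by positivity)
          (Nat.cast_nonneg _)
  · calc (prodS c : ℝ) * prodS s ≤ (2 * yA a X : ℝ) ^ c.card * (2 * yA a X : ℝ) ^ s.card :=
          mul_le_mul (hupp c hc) (hupp s hs) (Nat.cast_nonneg _) (by positivity)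
      _ = (2 * yA a X : ℝ) ^ (kA a X) := by rw [← pow_add, hcard]
      _ = Real.exp (kA a X * (Real.log 2 + l)) := by
          rw [← Real.rpow_natCast, Real.rpow_def_of_pos (by positivity),
            Real.log_mul (by norm_num) hy0.ne']
          congr 1; ring
      _ ≤ Real.exp ((th a * L / l + 1) * (Real.log 2 + l)) := by
          apply Real.exp_le_exp.mpr
          exact mul_le_mul_of_nonneg_right hk2 (by linarith)
      _ ≤ Real.exp ((th a + cc a) * L) := by
          apply Real.exp_le_exp.mpr
          have e : (th a * L / l + 1) * (Real.log 2 + l) =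
              th a * L + (l + Real.log 2) + th a * L / l * Real.log 2 := by
            field_simp
            ring
          rw [e]
          have a1 : Real.log 2 ≤ cc a / 3 * L := by
            have : 1 ≤ cc a / 3 * L := by
              have := mul_le_mul_of_nonneg_left h1 (show 0 ≤ cc a / 3 by positivity)
              have e2 : cc a / 3 * (1 / (cc a / 3)) = 1 := by field_simp
              linarith
            linarith
          have a2 : th a * L / l * Real.log 2 ≤ cc a / 3 * L := by
            have b1 : th a * L / l ≤ L * (cc a / 3) := by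
              rw [div_le_iff₀ hl0]
              have : 1 ≤ cc a / 3 * l := by
                have := mul_le_mul_of_nonneg_left h3 (show 0 ≤ cc a / 3 by positivity)
                have e2 : cc a / 3 * (1 / (cc a / 3)) = 1 := by field_simp
                linarith
              nlinarith
            calc th a * L / l * Real.log 2 ≤ L * (cc a / 3) * 1 :=
                  mul_le_mul b1 h6 h7 (by positivity)
              _ = cc a / 3 * L := by ring
          linarith
      _ = (X : ℝ) ^ (th a + cc a) := by
          rw [Real.rpow_def_of_pos hX1]; congr 1; ring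

end Run7.h694.CG
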