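import Pool.Agent.Run7.h694.CG.Par

/-!
Piece NUM2 (P2_NB) of the class group project: size of the parameters.
-/

set_option autoImplicit false

namespace Run7.h694.CG

open Finset Filter Pool.Agent.H38R2.CG Pool.Agent.H38R2.CG2
open scoped Classical

namespace NUM2h

/-- the binomial coefficient is large -/
theorem choose_ge (P k : ℕ) (hk : 1 ≤ k) (hP : 2 * k ≤ P) :
    ((P : ℝ) / (2 * k)) ^ k ≤ (P.choose k : ℝ) := by
  have hk' : (1 : ℝ) ≤ k := by exact_mod_cast hk
  have hP' : 2 * (k : ℝ) ≤ P := by exact_mod_cast hP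
  have hch := Nat.pow_le_choose (α := ℝ) k P
  have hfac : ((k.factorial : ℕ) : ℝ) ≤ (k : ℝ) ^ k := by
    exact_mod_cast Nat.factorial_le_pow k
  have hcast : ((P + 1 - k : ℕ) : ℝ) = (P : ℝ) + 1 - k := by
    rw [Nat.cast_sub (by omega)]
    push_cast
    ring
  have hbase : (P : ℝ) / (2 * k) ≤ ((P : ℝ) + 1 - k) / k := by
    rw [div_le_div_iff₀ (by linarith) (by linarith)]
    nlinarith
  calc ((P : ℝ) / (2 * k)) ^ k ≤ (((P : ℝ) + 1 - k) / k) ^ k :=
        pow_le_pow_left₀ (by positivity) hbase k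
    _ = ((P : ℝ) + 1 - k) ^ k / (k : ℝ) ^ k := div_pow _ _ _
    _ ≤ ((P : ℝ) + 1 - k) ^ k / ((k.factorial : ℕ) : ℝ) := by
        refine div_le_div_of_nonneg_left ?_ (by exact_mod_cast Nat.factorial_pos k) hfac
        have : 0 ≤ (P : ℝ) + 1 - k := by linarith
        positivity
    _ ≤ (P.choose k : ℝ) := by
        rw [← hcast]
        exact_mod_cast hch

theorem card_PP_le (y : ℕ) : ((PP y).card : ℝ) ≤ y := by
  have h1 : (PP y).card ≤ (Finset.Ioc y (2 * y)).card := Finset.card_le_card (Finset.filter_subset _ _)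
  rw [Nat.card_Ioc] at h1
  have : (PP y).card ≤ y := by omega
  exact_mod_cast this

theorem slack_pos {a : ℝ} (ha : 2 < a) : 0 < (a - 2) / (4 * a) - 3 * cc a := by
  unfold cc
  have h1 : (a - 2) / (4 * a) - 3 * ((a - 2) / (32 * (a - 1))) =
      (a - 2) * (20 * a - 32) / (128 * a * (a - 1)) := by
    have : a - 1 ≠ 0 := by linarith
    have : a ≠ 0 := by linarith
    field_simp
    ring
  rw [h1]
  refine div_pos (mul_pos (by linarith) (by linarith)) (mul_pos (by linarith) (by linarith))

theorem th_mul {a : ℝ} (ha : 2 < a) : th a * (1 - 1 / a) = 1 / 2 + (a - 2) / (4 * a) := by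
  unfold th cc
  have : a - 1 ≠ 0 := by linarith
  have : a ≠ 0 := by linarith
  field_simp
  ring

end NUM2h

theorem T2_NB (hNB : P_NB) : P2_NB := by
  intro a ha ε hε
  obtain ⟨-, y0, hy0⟩ := hNB
  have hc0 := Par.cc_pos ha
  have hth1 := Par.th_lt ha
  have hth0 := Par.th_gt ha
  have hs := NUM2h.slack_pos ha
  set sl := (a - 2) / (4 * a) - 3 * cc a with hsl
  set b := (a - 2) / 2 with hb
  have hb0 : 0 < b := by rw [hb]; linarith
  -- a small parameter
  set δ := min (min (ε / 2) (sl / 3)) (1 / 8) with hδ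
  have hδ0 : 0 < δ := lt_min (lt_min (by linarith) (by linarith)) (by norm_num)
  have hδ1 : δ ≤ ε / 2 := (min_le_left _ _).trans (min_le_left _ _)
  have hδ2 : δ ≤ sl / 3 := (min_le_left _ _).trans (min_le_right _ _)
  have hδ3 : δ ≤ 1 / 8 := min_le_right _ _
  have e1 := Par.ev ha δ hδ0
  have e2 := Par.tendsto_log.eventually (Par.mul_log_le_rpow (8 * a / (9 / 10)) b (by positivity) hb0)
  have e3 := Par.tendsto_log.eventually (Par.mul_log_le_rpow (4 * a / 3) (1 / 2) (by positivity)
    (by norm_num))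
  have e4 := ((tendsto_rpow_atTop hb0).comp Par.tendsto_log).eventually_ge_atTop 4
  have e5 := (Par.tendsto_yA ha).eventually_ge_atTop y0
  obtain ⟨X0, hX0⟩ := Filter.eventually_atTop.mp (e1.and (e2.and (e3.and (e4.and e5))))
  refine ⟨X0, fun X hX => ?_⟩
  obtain ⟨⟨h1, h2, h3, h4, h5, h6, h7, h8, hX1, hyp⟩, g2, g3, g4, g5⟩ := hX0 X hX
  have hPP := hy0 _ g5
  have hPle : ((PA a X).card : ℝ) ≤ yA a X := NUM2h.card_PP_le _
  have hkge : th a * Real.log X / Real.log (yA a X) ≤ kA a X := Par.kA_ge X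
  set L := Real.log (X : ℝ) with hL
  set l := Real.log (yA a X : ℝ) with hl
  set y : ℝ := (yA a X : ℝ) with hy
  set k := kA a X with hk
  have hPP1 : (9 / 10 : ℝ) * y / l ≤ ((PA a X).card : ℝ) := hPP.1
  set P := (PA a X).card with hP
  have g4' : 4 ≤ L ^ b := g4
  have inv8 : (8 : ℝ) ≤ 1 / δ := by
    rw [le_div_iff₀ hδ0]
    linarith
  have hL8 : 8 ≤ L := inv8.trans h1
  have hl8 : 8 ≤ l := inv8.trans h3
  have hL0 : 0 < L := by linarith
  have hl0 : 0 < l := by linarith
  have hδl : 1 ≤ δ * l := by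
    have := mul_le_mul_of_nonneg_left h3 hδ0.le
    have e : δ * (1 / δ) = 1 := by field_simp
    linarith
  have hδL : 1 ≤ δ * L := by
    have := mul_le_mul_of_nonneg_left h1 hδ0.le
    have e : δ * (1 / δ) = 1 := by field_simp
    linarith
  have hkle : (k : ℝ) ≤ th a * L / l + 1 := Par.kA_le X (by positivity)
  -- th L / l ≤ δ L
  have hq : th a * L / l ≤ δ * L := by
    rw [div_le_iff₀ hl0]
    calc th a * L ≤ 1 * L := mul_le_mul_of_nonneg_right hth1.le hL0.le
      _ ≤ (δ * l) * L := mul_le_mul_of_nonneg_right hδl hL0.le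
      _ = δ * L * l := by ring
  have hk1 : (k : ℝ) ≤ 2 * (δ * L) := by linarith
  have hkL : (k : ℝ) ≤ L := by
    have : δ * L ≤ 1 / 8 * L := mul_le_mul_of_nonneg_right hδ3 hL0.le
    linarith
  have hk1' : 1 ≤ k := by rw [hk]; unfold kA; omega
  have hlogL0 : 0 < Real.log L := Real.log_pos (by linarith)
  have hLb0 : 0 < L ^ b := by positivity
  -- P is large
  have hP2 : L ^ 2 * L ^ b ≤ (P : ℝ) := by
    have s1 : L ^ a = L ^ 2 * (L ^ b * L ^ b) := by
      rw [← Real.rpow_add hL0, ← Real.rpow_natCast, ← Real.rpow_add hL0]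
      congr 1
      rw [hb]
      push_cast
      ring
    have s2 : L ^ 2 * (L ^ b * (8 * a / (9 / 10) * Real.log L)) ≤ 8 * y := by
      calc L ^ 2 * (L ^ b * (8 * a / (9 / 10) * Real.log L)) ≤ L ^ 2 * (L ^ b * L ^ b) := by
            gcongr
        _ = L ^ a := s1.symm
        _ ≤ 8 * y := h6
    have s3 : L ^ 2 * L ^ b ≤ (9 / 10 : ℝ) * y / (a * Real.log L) := by
      rw [le_div_iff₀ (by positivity)]
      have : L ^ 2 * (L ^ b * (8 * a / (9 / 10) * Real.log L)) =
        (L ^ 2 * L ^ b * (a * Real.log L)) * (80 / 9) := by ring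
      rw [this] at s2
      linarith
    have s4 : (9 / 10 : ℝ) * y / (a * Real.log L) ≤ (9 / 10 : ℝ) * y / l :=
      div_le_div_of_nonneg_left (by positivity) hl0 h8
    linarith
  have hPk : 4 * k ^ 2 ≤ P := by
    have : 4 * (k : ℝ) ^ 2 ≤ P := by
      calc 4 * (k : ℝ) ^ 2 ≤ 4 * L ^ 2 := by gcongr
        _ = L ^ 2 * 4 := by ring
        _ ≤ L ^ 2 * L ^ b := by gcongr
        _ ≤ P := hP2
    exact_mod_cast this
  have hyX : y ≤ (X : ℝ) ^ ε := by
    have w1 : l ≤ L * ε := by
      calc l ≤ δ * L := h5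
        _ ≤ ε * L := mul_le_mul_of_nonneg_right (by linarith) hL0.le
        _ = L * ε := by ring
    calc y = Real.exp l := (Real.exp_log hyp).symm
      _ ≤ Real.exp (L * ε) := Real.exp_le_exp.mpr w1
      _ = (X : ℝ) ^ ε := by rw [Real.rpow_def_of_pos hX1]
  refine ⟨?_, ?_, ?_, hkL, ?_, hyX, hPk, hPle.trans hyX⟩
  · -- k^2
    rw [Real.rpow_neg hL0.le, inv_mul_eq_div, le_div_iff₀ hLb0]
    have w1 : (k : ℝ) ^ 2 ≤ L ^ 2 := pow_le_pow_left₀ (Nat.cast_nonneg _) hkL 2
    exact (mul_le_mul_of_nonneg_right w1 hLb0.le).trans hP2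
  · -- NA
    have hP2k : 2 * k ≤ P := by
      have : k * 1 ≤ k * k := Nat.mul_le_mul_left k hk1'
      have e : 4 * k ^ 2 = 4 * (k * k) := by ring
      rw [e] at hPk
      omega
    have hcg := NUM2h.choose_ge P k hk1' hP2k
    have hkr : (1 : ℝ) ≤ k := by exact_mod_cast hk1'
    -- P / (2k) ≥ y/(4L)
    have t1 : y / (4 * L) ≤ (P : ℝ) / (2 * k) := by
      have t2 : (k : ℝ) * l ≤ (9 / 5) * L := by
        calc (k : ℝ) * l ≤ (th a * L / l + 1) * l := mul_le_mul_of_nonneg_right hkle hl0.le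
          _ = th a * L + l := by field_simp
          _ ≤ (9 / 5) * L := by
            have u1 : th a * L ≤ 1 * L := mul_le_mul_of_nonneg_right hth1.le hL0.le
            have u2 : δ * L ≤ 1 / 8 * L := mul_le_mul_of_nonneg_right hδ3 hL0.le
            linarith
      calc y / (4 * L) = (9 / 10 * y) / (2 * ((9 / 5) * L)) := by
            field_simp
            ring
        _ ≤ (9 / 10 * y) / (2 * ((k : ℝ) * l)) :=
            div_le_div_of_nonneg_left (by positivity) (by positivity) (by linarith)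
        _ = (9 / 10 * y / l) / (2 * k) := by
            field_simp
        _ ≤ (P : ℝ) / (2 * k) := div_le_div_of_nonneg_right hPP1 (by positivity)
    have t3 : (1 - 1 / a) * l - 3 ≤ Real.log (y / (4 * L)) := by
      rw [Real.log_div (by positivity) (by positivity), Real.log_mul (by norm_num) hL0.ne']
      have t4 : a * Real.log L ≤ l + Real.log 8 := by
        have := Real.log_le_log (by positivity) h6
        rw [Real.log_rpow hL0, Real.log_mul (by norm_num) hyp.ne'] at this
        linarith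
      have t5 : Real.log 8 = 3 * Real.log 2 := by
        rw [show (8 : ℝ) = 2 ^ 3 by norm_num, Real.log_pow]; norm_num
      have t6 : Real.log 4 = 2 * Real.log 2 := by
        rw [show (4 : ℝ) = 2 ^ 2 by norm_num, Real.log_pow]; norm_num
      have t7 : Real.log 2 < 0.7 := by
        have := Real.log_two_lt_d9
        linarith
      have t8 : 0 < Real.log 2 := Real.log_pos (by norm_num)
      have t9 : Real.log L ≤ l / a + 3 / 2 * Real.log 2 := by
        have : Real.log L ≤ (l + 3 * Real.log 2) / a := by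
          rw [le_div_iff₀ (by linarith)]
          rw [t5] at t4
          linarith
        have u : 3 * Real.log 2 / a ≤ 3 / 2 * Real.log 2 := by
          have : 3 * Real.log 2 / a ≤ 3 * Real.log 2 / 2 :=
            div_le_div_of_nonneg_left (by positivity) (by norm_num) ha.le
          linarith
        rw [add_div] at this
        linarith
      have t10 : (1 - 1 / a) * l = l - l / a := by ring
      rw [t10, t6]
      linarith
    have t11 : 0 ≤ (1 - 1 / a) * l - 3 := by
      have : 1 / a ≤ 1 / 2 := one_div_le_one_div_of_le (by norm_num) ha.le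
      have u : (1 / 2) * l ≤ (1 - 1 / a) * l := mul_le_mul_of_nonneg_right (by linarith) hl0.le
      linarith
    have t12 : (1 / 2 + 3 * cc a) * L ≤ k * Real.log ((P : ℝ) / (2 * k)) := by
      have u1 : Real.log (y / (4 * L)) ≤ Real.log ((P : ℝ) / (2 * k)) :=
        Real.log_le_log (by positivity) t1
      have u2 : th a * L / l * ((1 - 1 / a) * l - 3) ≤ k * Real.log ((P : ℝ) / (2 * k)) :=
        mul_le_mul hkge (t3.trans u1) t11 (by positivity)
      refine le_trans ?_ u2
      have u3 : th a * L / l * ((1 - 1 / a) * l - 3) =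
          th a * (1 - 1 / a) * L - 3 * (th a * L / l) := by
        field_simp
      rw [u3, NUM2h.th_mul ha]
      have u4 : 3 * (th a * L / l) ≤ sl * L := by
        calc 3 * (th a * L / l) ≤ 3 * (δ * L) := by linarith
          _ ≤ sl * L := by
            have : δ * L ≤ sl / 3 * L := mul_le_mul_of_nonneg_right hδ2 hL0.le
            linarith
      have u5 : (1 / 2 + 3 * cc a) * L = (1 / 2 + (a - 2) / (4 * a)) * L - sl * L := by
        rw [hsl]; ring
      rw [u5]
      linarith
    have hPk0 : 0 < (P : ℝ) / (2 * k) := lt_of_lt_of_le (by positivity) t1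
    calc (X : ℝ) ^ (1 / 2 + 3 * cc a) = Real.exp ((1 / 2 + 3 * cc a) * L) := by
          rw [Real.rpow_def_of_pos hX1]; congr 1; ring
      _ ≤ Real.exp (k * Real.log ((P : ℝ) / (2 * k))) := Real.exp_le_exp.mpr t12
      _ = ((P : ℝ) / (2 * k)) ^ k := by
          rw [← Real.rpow_natCast, Real.rpow_def_of_pos hPk0]; congr 1; ring
      _ ≤ NA a X := hcg
  · -- 2^k
    calc (2 : ℝ) ^ k = Real.exp (k * Real.log 2) := by
          rw [← Real.rpow_natCast, Real.rpow_def_of_pos (by norm_num)]; congr 1; ring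
      _ ≤ Real.exp (L * ε) := by
          apply Real.exp_le_exp.mpr
          have t7 : Real.log 2 < 0.7 := by
            have := Real.log_two_lt_d9
            linarith
          have t8 : 0 < Real.log 2 := Real.log_pos (by norm_num)
          have w1 : δ * L ≤ ε / 2 * L := mul_le_mul_of_nonneg_right hδ1 hL0.le
          have w2 : (k : ℝ) ≤ L * ε := by linarith
          have w3 : (k : ℝ) * Real.log 2 ≤ k * 1 :=
            mul_le_mul_of_nonneg_left (by linarith) (Nat.cast_nonneg _)
          linarith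
      _ = (X : ℝ) ^ ε := by rw [Real.rpow_def_of_pos hX1]
  · -- √L ≤ k
    have g3' : 4 * a / 3 * Real.log L ≤ L ^ (1 / 2 : ℝ) := g3
    rw [← Real.sqrt_eq_rpow] at g3'
    refine le_trans ?_ hkge
    rw [le_div_iff₀ hl0]
    have hsq : √L * √L = L := Real.mul_self_sqrt hL0.le
    have hsq0 : 0 < √L := Real.sqrt_pos.mpr hL0
    have w1 : l ≤ 3 / 4 * √L := by linarith
    calc √L * l ≤ √L * (3 / 4 * √L) := mul_le_mul_of_nonneg_left w1 hsq0.le
      _ = 3 / 4 * L := by
          rw [show √L * (3 / 4 * √L) = 3 / 4 * (√L * √L) by ring, hsq]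
      _ ≤ th a * L := mul_le_mul_of_nonneg_right hth0.le hL0.le

end Run7.h694.CG
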