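import Pool.Agent.H38R2.CG2.Stubs

/-!
Parameters of the class group project: basic estimates.
-/

set_option autoImplicit false

namespace Run7.h694.CG

open Finset Filter Pool.Agent.H38R2.CG Pool.Agent.H38R2.CG2
open scoped Classical

namespace Par

theorem cc_pos {a : ℝ} (ha : 2 < a) : 0 < cc a := by
  unfold cc
  exact div_pos (by linarith) (by linarith)

theorem cc_lt {a : ℝ} (ha : 2 < a) : cc a < 1 / 32 := by
  unfold cc
  rw [div_lt_div_iff₀ (by linarith) (by norm_num)]
  linarith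

theorem th_lt {a : ℝ} (ha : 2 < a) : th a < 1 := by
  unfold th
  have := cc_pos ha
  linarith

theorem th_gt {a : ℝ} (ha : 2 < a) : 3 / 4 < th a := by
  unfold th
  have := cc_lt ha
  linarith

theorem tendsto_log : Tendsto (fun X : ℕ => Real.log (X : ℝ)) atTop atTop :=
  Real.tendsto_log_atTop.comp tendsto_natCast_atTop_atTop

theorem tendsto_yA {a : ℝ} (ha : 2 < a) : Tendsto (fun X : ℕ => yA a X) atTop atTop := by
  have h1 : Tendsto (fun X : ℕ => (Real.log X) ^ a / 4) atTop atTop :=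
    ((tendsto_rpow_atTop (by linarith)).comp tendsto_log).atTop_div_const (by norm_num)
  exact tendsto_nat_floor_atTop.comp h1

theorem tendsto_yAr {a : ℝ} (ha : 2 < a) : Tendsto (fun X : ℕ => (yA a X : ℝ)) atTop atTop :=
  tendsto_natCast_atTop_atTop.comp (tendsto_yA ha)

theorem log_le_mul (δ : ℝ) (hδ : 0 < δ) : ∀ᶠ L : ℝ in atTop, Real.log L ≤ δ * L := by
  have h := Real.isLittleO_log_id_atTop.bound hδ
  filter_upwards [h, eventually_ge_atTop 1] with L hL hL1
  simp only [id_eq, Real.norm_eq_abs] at hL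
  rw [abs_of_nonneg (by linarith : (0:ℝ) ≤ L)] at hL
  exact (le_abs_self _).trans hL

/-- log is smaller than any power -/
theorem mul_log_le_rpow (C δ : ℝ) (hC : 0 ≤ C) (hδ : 0 < δ) :
    ∀ᶠ L : ℝ in atTop, C * Real.log L ≤ L ^ δ := by
  have h := (isLittleO_log_rpow_atTop hδ).bound (show (0:ℝ) < 1 / (C + 1) by positivity)
  filter_upwards [h, eventually_ge_atTop 1] with L hL hL1
  have h0 : 0 ≤ Real.log L := Real.log_nonneg hL1
  have h1 : 0 ≤ L ^ δ := by positivity
  rw [Real.norm_eq_abs, Real.norm_eq_abs, abs_of_nonneg h0, abs_of_nonneg h1] at hL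
  calc C * Real.log L ≤ (C + 1) * Real.log L := by nlinarith
    _ ≤ (C + 1) * (1 / (C + 1) * L ^ δ) := mul_le_mul_of_nonneg_left hL (by linarith)
    _ = L ^ δ := by field_simp

/-- the basic estimates -/
theorem ev {a : ℝ} (ha : 2 < a) (δ : ℝ) (hδ : 0 < δ) : ∀ᶠ X : ℕ in atTop,
    1 / δ ≤ Real.log (X : ℝ) ∧ 1 ≤ Real.log (X : ℝ) ∧ 1 / δ ≤ Real.log (yA a X) ∧
    1 ≤ Real.log (yA a X) ∧
    Real.log (yA a X) ≤ δ * Real.log X ∧ (Real.log (X : ℝ)) ^ a ≤ 8 * (yA a X : ℝ) ∧
    (yA a X : ℝ) ≤ (Real.log (X : ℝ)) ^ a ∧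
    Real.log (yA a X) ≤ a * Real.log (Real.log X) ∧ (0 : ℝ) < X ∧ (0 : ℝ) < yA a X := by
  have hl := Real.tendsto_log_atTop.comp (tendsto_yAr ha)
  have h3 := tendsto_log.eventually (log_le_mul (δ / a) (by positivity))
  filter_upwards [tendsto_log.eventually_ge_atTop (1 / δ), tendsto_log.eventually_ge_atTop 2,
    hl.eventually_ge_atTop (1 / δ), hl.eventually_ge_atTop 1, h3,
    (tendsto_yAr ha).eventually_ge_atTop 1] with X b1 b2 b3 b4 b5 b6
  have hX : (0 : ℝ) < X := by
    by_contra hc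
    push Not at hc
    have h0 : (X : ℝ) = 0 := le_antisymm hc (Nat.cast_nonneg _)
    rw [h0, Real.log_zero] at b2
    norm_num at b2
  have hL0 : (0 : ℝ) < Real.log X := by linarith
  have hy0 : (0 : ℝ) < yA a X := by linarith
  have hup : (yA a X : ℝ) ≤ (Real.log X) ^ a / 4 := Nat.floor_le (by positivity)
  have hlo : (Real.log X) ^ a / 4 < (yA a X : ℝ) + 1 := Nat.lt_floor_add_one _
  have hya : (yA a X : ℝ) ≤ (Real.log X) ^ a := by
    have : 0 ≤ (Real.log X) ^ a := by positivity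
    linarith
  have hlog : Real.log (yA a X) ≤ a * Real.log (Real.log X) := by
    have := Real.log_le_log hy0 hya
    rwa [Real.log_rpow hL0] at this
  refine ⟨b1, by linarith, b3, b4, ?_, by linarith, hya, hlog, hX, hy0⟩
  calc Real.log (yA a X) ≤ a * Real.log (Real.log X) := hlog
    _ ≤ a * (δ / a * Real.log X) := mul_le_mul_of_nonneg_left b5 (by linarith)
    _ = δ * Real.log X := by field_simp

theorem kA_ge {a : ℝ} (X : ℕ) :
    th a * Real.log X / Real.log (yA a X) ≤ kA a X := by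
  unfold kA
  push_cast
  exact (Nat.lt_floor_add_one _).le

theorem kA_le {a : ℝ} (X : ℕ) (h : 0 ≤ th a * Real.log X / Real.log (yA a X)) :
    (kA a X : ℝ) ≤ th a * Real.log X / Real.log (yA a X) + 1 := by
  unfold kA
  push_cast
  have := Nat.floor_le h
  linarith

end Par

end Run7.h694.CG
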